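import Pool.Agent.L7h9.CP.Unr
import Pool.Agent.L7h9.CP.Tor
set_option autoImplicit false

/-!
Circuits over arbitrary bases: symbols on the coverings `W_e(z_e) = λ ^ deg F_e F_e(g_e)` of an
arbitrary variety `Spec A` over a number field, `e = 1, ..., m`, where the `g_e` are functions on the
variety, the `F_e` are monic polynomials and the `W_e` are Laurent polynomials in one variable. If
`n + 1` of the functions `g_e` have a linear relation whose coefficients are roots of unity, then the
symbol `{z_e}` of these `e` is unramified everywhere, for every algebraic integer `λ`. The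
regulators of the symbols of different circuits are independent for large `λ` as soon as each
circuit has a nonzero period on the variety `Spec A`.
-/

namespace Pool.Agent.L7h9.Old.CircuitPrinciple

open Pool.Agent.TH826.MK (KQ Unramified Torus)

open Pool.Agent.N65.TL (LP)

open Pool.Agent.L7h9.CP (Cov Circuit XR xbase xz sym lead)

section defs

variable {K A : Type*} [Field K] [CommRing A] {m n N : ℕ}

/-- The circuits `D_1, ..., D_N` have different underlying sets. -/
def Different (D : Fin N → Fin (n + 1) → Fin m) : Prop :=
  ∀ k k', Set.range (D k) = Set.range (D k') → k = k'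

/-- The symbols `{z_e : e ∈ D_k}` have unramified images in `K_{n+1} ⊗ ℚ` of all fields `L` with a
homomorphism from the coordinate ring to `L` (for example of the function fields of the
components). -/
def UnramifiedCircuits.{u, w, v} {K : Type u} {A : Type w} [Field K] [CommRing A] {m n N : ℕ}
    (C : Cov K A m) (ι : K →+* A) (lam : K) (D : Fin N → Fin (n + 1) → Fin m) : Prop :=
  ∀ (L : Type v) [Field L] (f : XR C ι lam →+* L) (k : Fin N),
    KQ.map (n + 1) f (sym C ι lam (D k)) ∈ Unramified L (n + 1)

/-- For every `k` there is a torus of dimension `n` in the complex points over `σ` of the base on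
which the regulator of the class `∑_i deg F_(D_k i) {f_e : e ∈ D_k, with 2 in the place i}` is not
zero (the regulator is `± log 2` times the integral of the differential form
`∑_i ± deg F_(D_k i) ∏_{j ≠ i} dlog f_(D_k j)`). -/
def NonzeroPeriods [CharZero K] (σ : K →+* ℂ) (C : Cov K A m) (ι : K →+* A)
    (D : Fin N → Fin (n + 1) → Fin m) : Prop :=
  ∀ k, ∃ T : Torus A n, (∀ θ (x : K), T.e θ (ι x) = σ x) ∧ T.reg (lead C ι (D k)) ≠ 0

/-- The value of `z W'(z)`. -/
noncomputable def deriv (σ : K →+* ℂ) (W : LP K 1) (z : ℂ) : ℂ :=
  ∑ p ∈ W.coeff.support, σ (W.coeff p) * ((p 0 : ℂ) * z ^ p 0)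

/-- There are `N` tori of dimension `n` in the complex points over `σ` of the covering, at whose
points the covering is étale over the base (`W_e'(z_e) ≠ 0`), such that the determinant of the
regulators of the `N` symbols on the `N` tori does not vanish. -/
def IndependentRegulators (σ : K →+* ℂ) (C : Cov K A m) (ι : K →+* A) (lam : K)
    (D : Fin N → Fin (n + 1) → Fin m) : Prop :=
  ∃ Γ : Fin N → Torus (XR C ι lam) n,
    (∀ t θ (x : K), (Γ t).e θ (xbase C ι lam (ι x)) = σ x) ∧
    (∀ t θ e, deriv σ (C.W e) ((Γ t).e θ (xz C ι lam e : XR C ι lam)) ≠ 0) ∧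
    (Matrix.of fun t k => (Γ t).reg (sym C ι lam (D k))).det ≠ 0

end defs

theorem finite_bounded (K : Type*) [Field K] [NumberField K] (C : (K →+* ℂ) → ℝ) :
    {lam : K | IsIntegral ℤ lam ∧ ∀ σ : K →+* ℂ, ‖σ lam‖ < C σ}.Finite := by
  classical
  obtain ⟨B, hB⟩ : ∃ B : ℝ, ∀ σ : K →+* ℂ, C σ ≤ B := by
    refine ⟨∑ σ : K →+* ℂ, |C σ|, fun σ => (le_abs_self _).trans ?_⟩
    exact Finset.single_le_sum (f := fun σ : K →+* ℂ => |C σ|) (fun _ _ => abs_nonneg _)
      (Finset.mem_univ σ)
  refine (NumberField.Embeddings.finite_of_norm_le K ℂ B).subset ?_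
  rintro lam ⟨h1, h2⟩
  exact ⟨h1, fun σ => (h2 σ).le.trans (hB σ)⟩

/-- CIRCUIT PRINCIPLE. Let `K` be a number field and `A` an arbitrary `K`-algebra (`ι : K → A`), a
ring of functions on the base. For `e = 1, ..., m` let `g_e` be an element of `A`, `F_e` a monic
polynomial of positive degree with coefficients in the ring of integers of `K` for which
`f_e = F_e(g_e)` is a unit of `A`, and `W_e` a Laurent polynomial in one variable with coefficients
in the ring of integers, with terms of positive and of negative degree, whose two extreme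
coefficients are roots of unity (`Cov.Admissible`). Let `D_1, ..., D_N` be different circuits: sets
of `n + 1` indices with relations `∑ c_e g_e = 0` whose coefficients are roots of unity.

(1) For every algebraic integer `λ` of `K` the `N` symbols `{z_e : e ∈ D_k}` on the covering
`W_e(z_e) = λ ^ deg F_e F_e(g_e)`, `e = 1, ..., m`, of the base are unramified (at all discrete
valuations of all fields with a homomorphism from the coordinate ring).

(2) Let `σ` be a complex embedding of `K`. If every circuit has a nonzero period on a torus of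
dimension `n` in the complex points of the base over `σ` (`NonzeroPeriods`), then there is a
constant `C` such that for all `λ ∈ K` with `|σ λ| ≥ C` the regulators of the `N` symbols on `N` tori
of dimension `n` in the complex points of the covering over `σ` are independent.

(3) If every circuit has a nonzero period for every `σ`, then for all but finitely many algebraic
integers `λ` of `K` the regulators of the `N` unramified symbols are independent for some `σ`. -/
theorem result.{u, w, v} (K : Type u) [Field K] [NumberField K] (A : Type w) [CommRing A]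
    (ι : K →+* A) (m n N : ℕ) (C : Cov K A m) (hC : C.Admissible ι)
    (D : Fin N → Fin (n + 1) → Fin m) (hD : ∀ k, Circuit C ι (D k)) (hD' : Different D) :
    (∀ lam : K, IsIntegral ℤ lam → UnramifiedCircuits.{u, w, v} C ι lam D) ∧
    (∀ σ : K →+* ℂ, NonzeroPeriods σ C ι D →
      ∃ B : ℝ, ∀ lam : K, B ≤ ‖σ lam‖ → IndependentRegulators σ C ι lam D) ∧
    ((∀ σ : K →+* ℂ, NonzeroPeriods σ C ι D) →
      {lam : K | IsIntegral ℤ lam ∧
        ¬ ∃ σ : K →+* ℂ, IndependentRegulators σ C ι lam D}.Finite) := by
  have h2 : ∀ σ : K →+* ℂ, NonzeroPeriods σ C ι D →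
      ∃ B : ℝ, ∀ lam : K, B ≤ ‖σ lam‖ → IndependentRegulators σ C ι lam D := by
    intro σ hσ
    choose γ hγ hne using hσ
    obtain ⟨B, -, hB⟩ := Pool.Agent.L7h9.CP.exists_cov_tori σ hC D (fun k => (hD k).1) hD' γ hγ hne
    refine ⟨B, fun lam hl => ?_⟩
    obtain ⟨Γ, a1, a2, a3⟩ := hB lam hl
    refine ⟨Γ, a1, fun t θ e => ?_, a3⟩
    obtain ⟨i, hi⟩ := a2 t θ e
    have h3 : Pool.Agent.L7h9.LT.lder σ (C.W e)
        (fun _ : Fin 1 => (Γ t).e θ (xz C ι lam e : XR C ι lam)) i =
        deriv σ (C.W e) ((Γ t).e θ (xz C ι lam e : XR C ι lam)) := by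
      unfold Pool.Agent.L7h9.LT.lder deriv
      refine Finset.sum_congr rfl fun p _ => ?_
      rw [Fin.prod_univ_one, Fin.eq_zero i]
    rw [← h3]
    exact hi
  refine ⟨fun lam hlam L _ F k => ?_, h2, fun h => ?_⟩
  · exact Pool.Agent.L7h9.CP.sym_unramified hC hlam (hD k) F
  · choose B hB using fun σ : K →+* ℂ => h2 σ (h σ)
    refine (finite_bounded K B).subset ?_
    rintro lam ⟨hl1, hl2⟩
    refine ⟨hl1, fun σ => ?_⟩
    by_contra hcon
    push Not at hcon
    exact hl2 ⟨σ, hB σ lam hcon⟩

end Pool.Agent.L7h9.Old.CircuitPrinciple
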