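import Pool.Agent.L7h9.LT.Fin
set_option autoImplicit false

/-!
The regulator on `H^d(𝒳, ℚ(d))`, `d = dim 𝒳 = s + n + 2`, for models `𝒳` of the fibrations
`W(z_0, ..., z_s) = λ g ∏_j ∏_i (x_j - φ_{j,i}(x_{j+1}, ..., x_n))` of dimension `s + n + 1` over an
arbitrary number field, with an arbitrary tempered Laurent polynomial `W`, arbitrary integral
polynomials `φ_{j,i}` (different for every `j`; their graphs may cross and touch each other in any
way) and an arbitrary integral polynomial `g ≠ 0`, for all large algebraic integers `λ`: the open part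
`Φ ≠ 0` is smooth, the `∏_j r_j` symbols with the entries `z_0, ..., z_s` and
`(x_j - φ_{j,k_j + 1}) / (x_j - φ_{j,0})` are unramified at all discrete valuations, and their
regulators are linearly independent.
-/

namespace Pool.Agent.L7h9.Old.LaurentTowers

open Pool.Agent.TH826.MK (KQ symb Unramified Torus)

open Pool.Agent.N65.TL (LP Interior Tame FOpen fcst)

open Pool.Agent.Y797.TW (Tower)

open Pool.Agent.L7h9.LT (tPhi tent lval lder)

open MvPolynomial

section defs

variable {K : Type*} [Field K] {s n : ℕ}

/-- At all complex points (over `σ`) of the hypersurface `W(z) = Φ(x)`, `z_i ≠ 0`, with `Φ ≠ 0` the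
gradient of the equation is not zero. -/
def Smooth (σ : K →+* ℂ) (W : LP K (s + 1)) (A : Tower K n) (lam : K) : Prop :=
  ∀ (z : Fin (s + 1) → ℂ) (x : Fin (n + 1) → ℂ), (∀ i, z i ≠ 0) →
    lval σ W z = eval₂ σ x (tPhi A lam) → eval₂ σ x (tPhi A lam) ≠ 0 →
    (∃ i, lder σ W z i ≠ 0) ∨ ∃ j, eval₂ σ x (pderiv j (tPhi A lam)) ≠ 0

/-- The symbols have unramified images in `K_{s+n+2} ⊗ ℚ` of all fields `L` with a homomorphism from
the coordinate ring of the open part to `L` (for example of the function fields of its
components). -/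
def UnramifiedSymbols.{u, v} {K : Type u} [Field K] {s n : ℕ} (W : LP K (s + 1)) (A : Tower K n)
    (lam : K) : Prop :=
  ∀ (L : Type v) [Field L] (f : FOpen W (tPhi A lam) →+* L) (k : ∀ j, Fin (A.r j)),
    KQ.map _ f (symb (tent W A lam k)) ∈ Unramified L _

/-- The torus lies in the complex points over `σ`. -/
def Over (σ : K →+* ℂ) (W : LP K (s + 1)) (A : Tower K n) (lam : K)
    (Γ : Torus (FOpen W (tPhi A lam)) (s + (n + 1))) : Prop :=
  ∀ θ (x : K), Γ.e θ (fcst W (tPhi A lam) x) = σ x

/-- The matrix of the regulators of the symbols on the tori `Γ_t`. -/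
noncomputable def regMat (W : LP K (s + 1)) (A : Tower K n) (lam : K)
    (Γ : (∀ j, Fin (A.r j)) → Torus (FOpen W (tPhi A lam)) (s + (n + 1))) :
    Matrix (∀ j, Fin (A.r j)) (∀ j, Fin (A.r j)) ℝ :=
  Matrix.of fun t k => (Γ t).reg (symb (tent W A lam k))

/-- There are `∏_j r_j` tori of dimension `s + n + 1` in the complex points (over `σ`) of the open
part, such that the determinant of the regulators of the `∏_j r_j` symbols on the tori does not
vanish. -/
def IndependentRegulators (σ : K →+* ℂ) (W : LP K (s + 1)) (A : Tower K n) (lam : K) : Prop :=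
  ∃ Γ : (∀ j, Fin (A.r j)) → Torus (FOpen W (tPhi A lam)) (s + (n + 1)),
    (∀ t, Over σ W A lam (Γ t)) ∧ (regMat W A lam Γ).det ≠ 0

end defs

/-- Let `σ` be a complex embedding of the number field `K`, and let `W = ∑_m w_m z^m` be a Laurent
polynomial in `z_0, ..., z_s` over `K` such that

* the origin is an interior point of the Newton polytope (`Interior`: for every functional
  `a ∈ ℤ^{s+1}`, `a ≠ 0`, there is a monomial `z^m` of `W` with `a · m > 0`), and
* `W Q = ∏_j G_j` for a Laurent polynomial `Q ≠ 0` with integral coefficients and polynomials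
  `G_j = ∑_i ε_{j,i} z^{m_{j,i}}` of simplex type (`Tame`): the `ε_{j,i}` are roots of unity, and
  for every `j` the exponents `m_{j,i}` are affinely independent.

For `0 ≤ j ≤ n` let `r_j ≥ 0`, and let `φ_{j,0}, ..., φ_{j,r_j}` be different polynomials in the
variables `x_{j+1}, ..., x_n` (constants for `j = n`) whose coefficients are algebraic integers of
`K`, and let `g ≠ 0` be a polynomial in `x_0, ..., x_n` whose coefficients are algebraic integers
of `K`. There is a constant `C` such that for all algebraic integers `λ` of `K` with `|σ λ| ≥ C` the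
following holds for the open part `Φ ≠ 0` of the hypersurface `W(z) = Φ(x)`,
`Φ = λ g ∏_j ∏_i (x_j - φ_{j,i})`, `z_i ≠ 0`, of dimension `s + n + 1`:

it is smooth (over `σ`); for all `k = (k_0, ..., k_n)`, `0 ≤ k_j < r_j`, the symbol
`{z_0, ..., z_s, (x_0 - φ_{0,k_0+1})/(x_0 - φ_{0,0}), ..., (x_n - φ_{n,k_n+1})/(x_n - φ_{n,0})}` in
`K_{s+n+2} ⊗ ℚ` of its coordinate ring has an unramified image in `K_{s+n+2} ⊗ ℚ` of every field `L`
with a homomorphism from the coordinate ring to `L`; and there are `∏_j r_j` tori of dimension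
`s + n + 1` in its complex points (over `σ`) such that the determinant of the regulators of these
`∏_j r_j` symbols on the tori does not vanish. -/
theorem result.{u, v} (s n : ℕ) (K : Type u) [Field K] [NumberField K] (σ : K →+* ℂ)
    (W : LP K (s + 1)) (hW : Interior W) (hT : Tame W) (A : Tower K n) (hG : A.Graphs)
    (hI : A.Integral) :
    ∃ C : ℝ, ∀ lam : K, IsIntegral ℤ lam → C ≤ ‖σ lam‖ →
      Smooth σ W A lam ∧ UnramifiedSymbols.{u, v} W A lam ∧
      IndependentRegulators σ W A lam := by
  obtain ⟨C, -, hC⟩ := Pool.Agent.L7h9.LT.exists_toriT (W := W) σ hW hG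
  obtain ⟨C', -, hC'⟩ := Pool.Agent.L7h9.LT.exists_smoothW σ W A
  exact ⟨max C C', fun lam hlam hl => ⟨hC' lam ((le_max_right _ _).trans hl),
    fun L _ f k => Pool.Agent.L7h9.LT.tent_mem_unramified hW hT hG hI hlam f k,
    hC lam ((le_max_left _ _).trans hl)⟩⟩

end Pool.Agent.L7h9.Old.LaurentTowers
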